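import Pool.Agent.Levi.Whitehead

/-!
# Levi's theorem over a field of characteristic zero
-/

open LieModule LieAlgebra Module

namespace Pool.Agent.Levi

universe u v w

section Trick

variable {K : Type u} [Field K] {S : Type v} [LieRing S] [LieAlgebra K S]
    {L : Type w} [LieRing L] [LieAlgebra K L]

/-- The submodule `B` of endomorphisms with range in `ker p` and vanishing on `ker p`. -/
def trickB (p : L →ₗ⁅K⁆ S) : LieSubmodule K L (L →ₗ[K] L) where
  carrier := {ψ | (∀ x, p (ψ x) = 0) ∧ (∀ r, p r = 0 → ψ r = 0)}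
  add_mem' := by
    intro a b ha hb
    exact ⟨fun x => by rw [LinearMap.add_apply, map_add, ha.1, hb.1, add_zero],
      fun r hr => by rw [LinearMap.add_apply, ha.2 r hr, hb.2 r hr, add_zero]⟩
  zero_mem' := ⟨fun x => by simp, fun r _ => rfl⟩
  smul_mem' := by
    intro c a ha
    exact ⟨fun x => by rw [LinearMap.smul_apply, map_smul, ha.1, smul_zero],
      fun r hr => by rw [LinearMap.smul_apply, ha.2 r hr, smul_zero]⟩
  lie_mem := by
    intro x m hm
    have hm1 : ∀ x, p (m x) = 0 := hm.1
    have hm2 : ∀ r, p r = 0 → m r = 0 := hm.2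
    refine ⟨fun y => ?_, fun r hr => ?_⟩
    · rw [LieHom.lie_apply, map_sub, LieHom.map_lie, hm1, lie_zero, hm1, sub_zero]
    · rw [LieHom.lie_apply, hm2 r hr, lie_zero, hm2 _ (by rw [LieHom.map_lie, hr, lie_zero]),
        sub_zero]

theorem mem_trickB {p : L →ₗ⁅K⁆ S} {ψ : L →ₗ[K] L} :
    ψ ∈ trickB p ↔ (∀ x, p (ψ x) = 0) ∧ (∀ r, p r = 0 → ψ r = 0) := Iff.rfl

/-- The submodule `A` of inner derivations coming from `ker p`. -/
def trickA (p : L →ₗ⁅K⁆ S) : LieSubmodule K L (trickB p) where
  carrier := {ψ | ∃ r, p r = 0 ∧ ∀ y, (ψ : L →ₗ[K] L) y = ⁅r, y⁆}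
  add_mem' := by
    rintro a b ⟨r, hr, ha⟩ ⟨s, hs, hb⟩
    exact ⟨r + s, by rw [map_add, hr, hs, add_zero], fun y => by
      rw [LieSubmodule.coe_add, LinearMap.add_apply, ha, hb, add_lie]⟩
  zero_mem' := ⟨0, map_zero p, fun y => by simp⟩
  smul_mem' := by
    rintro c a ⟨r, hr, ha⟩
    exact ⟨c • r, by rw [map_smul, hr, smul_zero], fun y => by
      rw [LieSubmodule.coe_smul, LinearMap.smul_apply, ha, smul_lie]⟩
  lie_mem := by
    rintro x m ⟨r, hr, ha⟩
    refine ⟨⁅x, r⁆, by rw [LieHom.map_lie, hr, lie_zero], fun y => ?_⟩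
    rw [LieSubmodule.coe_bracket, LieHom.lie_apply, ha, ha, lie_lie]

theorem mem_trickA {p : L →ₗ⁅K⁆ S} {ψ : trickB p} :
    ψ ∈ trickA p ↔ ∃ r, p r = 0 ∧ ∀ y, (ψ : L →ₗ[K] L) y = ⁅r, y⁆ := Iff.rfl

theorem levi_trick [CharZero K] [FiniteDimensional K S] [HasTrivialRadical K S]
    [FiniteDimensional K L] (p : L →ₗ⁅K⁆ S) (hp : Function.Surjective p)
    (hab : ∀ x y, p x = 0 → p y = 0 → ⁅x, y⁆ = 0) :
    ∃ φ : L →ₗ[K] L, (∀ x, p (φ x) = 0) ∧ (∀ r, p r = 0 → φ r = r) ∧
      ∀ x : L, ∃ r : L, p r = 0 ∧ ∀ y : L, ⁅x, φ y⁆ - φ ⁅x, y⁆ = ⁅r, y⁆ := by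
  obtain ⟨σ, hσ⟩ := LinearMap.exists_rightInverse_of_surjective (p : L →ₗ[K] S)
    (LinearMap.range_eq_top.mpr hp)
  have hσ' : ∀ s, p (σ s) = s := fun s => by
    have := congrArg (fun g : S →ₗ[K] S => g s) hσ
    simpa using this
  obtain ⟨φ0, h0⟩ : ∃ φ0 : L →ₗ[K] L, ∀ x, φ0 x = x - σ (p x) :=
    ⟨LinearMap.id - σ ∘ₗ (p : L →ₗ[K] S), fun x => rfl⟩
  have h1 : ∀ x, p (φ0 x) = 0 := fun x => by rw [h0, map_sub, hσ', sub_self]
  have h2 : ∀ r, p r = 0 → φ0 r = r := fun r hr => by rw [h0, hr, map_zero, sub_zero]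
  have hB : ∀ x : L, ⁅x, φ0⁆ ∈ trickB p := by
    intro x
    refine ⟨fun y => ?_, fun r hr => ?_⟩
    · rw [LieHom.lie_apply, map_sub, LieHom.map_lie, h1, lie_zero, h1, sub_zero]
    · rw [LieHom.lie_apply, h2 r hr, h2 _ (by rw [LieHom.map_lie, hr, lie_zero]),
        sub_self]
  let f0 : L →ₗ[K] trickB p :=
    LinearMap.codRestrict (trickB p).toSubmodule
      ((toEnd K L (L →ₗ[K] L) : L →ₗ[K] End K (L →ₗ[K] L)).flip φ0) hB
  have hf0 : ∀ x, ((f0 x : trickB p) : L →ₗ[K] L) = ⁅x, φ0⁆ := fun x => rfl
  let q : trickB p →ₗ⁅K, L⁆ (trickB p) ⧸ (trickA p) := LieSubmodule.Quotient.mk' (trickA p)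
  obtain ⟨w, hw⟩ := whitehead_of_surjective p hp (W := (trickB p) ⧸ (trickA p)) (by
      intro x hx w
      obtain ⟨ψ, rfl⟩ := LieSubmodule.Quotient.surjective_mk' _ w
      rw [← LieModuleHom.map_lie]
      have : ⁅x, ψ⁆ = 0 := by
        ext y
        rw [LieSubmodule.coe_bracket, LieHom.lie_apply, hab _ _ hx (ψ.2.1 y),
          ψ.2.2 ⁅x, y⁆ (by rw [LieHom.map_lie, hx, zero_lie]), sub_zero]
        rfl
      rw [this, map_zero]) ((q : trickB p →ₗ[K] (trickB p) ⧸ (trickA p)) ∘ₗ f0) (by
      intro x y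
      simp only [LinearMap.comp_apply, LieModuleHom.coe_toLinearMap]
      rw [← LieModuleHom.map_lie, ← LieModuleHom.map_lie, ← map_sub]
      congr 1
      ext z
      simp only [LieSubmodule.coe_sub, LieSubmodule.coe_bracket, hf0]
      rw [lie_lie]) (by
      intro x hx
      simp only [LinearMap.comp_apply, LieModuleHom.coe_toLinearMap]
      rw [LieSubmodule.Quotient.mk_eq_zero]
      rw [mem_trickA]
      refine ⟨-x, by rw [map_neg, hx, neg_zero], fun y => ?_⟩
      rw [hf0, LieHom.lie_apply, hab _ _ hx (h1 y),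
        h2 ⁅x, y⁆ (by rw [LieHom.map_lie, hx, zero_lie]), zero_sub, neg_lie])
  obtain ⟨ψ, rfl⟩ := LieSubmodule.Quotient.surjective_mk' _ w
  refine ⟨φ0 - ψ, fun x => ?_, fun r hr => ?_, fun x => ?_⟩
  · rw [LinearMap.sub_apply, map_sub, h1, ψ.2.1, sub_zero]
  · rw [LinearMap.sub_apply, h2 r hr, ψ.2.2 r hr, sub_zero]
  · have h3 := hw x
    simp only [LinearMap.comp_apply, LieModuleHom.coe_toLinearMap] at h3
    rw [← LieModuleHom.map_lie, ← sub_eq_zero, ← map_sub, LieSubmodule.Quotient.mk_eq_zero,
      mem_trickA] at h3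
    obtain ⟨r, hr, h4⟩ := h3
    refine ⟨r, hr, fun y => ?_⟩
    have h5 := h4 y
    rw [LieSubmodule.coe_sub, hf0, LieSubmodule.coe_bracket, LinearMap.sub_apply,
      LieHom.lie_apply, LieHom.lie_apply] at h5
    rw [← h5, LinearMap.sub_apply, LinearMap.sub_apply, lie_sub]
    abel

end Trick

section Section

variable {K : Type u} [Field K] [CharZero K] {S : Type v} [LieRing S]
    [LieAlgebra K S] [FiniteDimensional K S] [HasTrivialRadical K S]

omit [CharZero K] [FiniteDimensional K S] [HasTrivialRadical K S] in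
/-- A subalgebra mapped bijectively gives a section. -/
theorem section_of_subalgebra {L : Type w} [LieRing L] [LieAlgebra K L] (p : L →ₗ⁅K⁆ S)
    (M : LieSubalgebra K L) (hinj : ∀ x ∈ M, p x = 0 → x = 0) (hsurj : ∀ s, ∃ x ∈ M, p x = s) :
    ∃ σ : S →ₗ⁅K⁆ L, ∀ s, p (σ s) = s := by
  let g : M →ₗ⁅K⁆ S := p.comp M.incl
  have hg : ∀ x : M, g x = p (x : L) := fun x => rfl
  have hb : Function.Bijective g := by
    constructor
    · rw [injective_iff_map_eq_zero]
      intro a ha
      exact Subtype.ext (hinj a a.2 ha)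
    · intro s
      obtain ⟨x, hx, h⟩ := hsurj s
      exact ⟨⟨x, hx⟩, h⟩
  let e := LieEquiv.ofBijective g hb
  refine ⟨M.incl.comp e.symm.toLieHom, fun s => ?_⟩
  have : g (e.symm s) = s := e.apply_symm_apply s
  exact this

theorem levi_irr {L : Type w} [LieRing L] [LieAlgebra K L] [FiniteDimensional K L]
    (p : L →ₗ⁅K⁆ S) (hp : Function.Surjective p)
    (hab : ∀ x y, p x = 0 → p y = 0 → ⁅x, y⁆ = 0)
    (hcen : (∀ x, p x = 0 → (∀ y : L, ⁅x, y⁆ = 0) → x = 0) ∨ (∀ x, p x = 0 → ∀ y : L, ⁅x, y⁆ = 0)) :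
    ∃ σ : S →ₗ⁅K⁆ L, ∀ s, p (σ s) = s := by
  obtain ⟨φ, h1, h2, h3⟩ := levi_trick p hp hab
  rcases hcen with hcen | hcen
  · let M : LieSubalgebra K L :=
      { carrier := {x | ∀ y, ⁅x, φ y⁆ = φ ⁅x, y⁆}
        add_mem' := by
          intro a b ha hb y
          rw [add_lie, add_lie, map_add, ha, hb]
        zero_mem' := by
          intro y
          rw [zero_lie, zero_lie, map_zero]
        smul_mem' := by
          intro c a ha y
          rw [smul_lie, smul_lie, map_smul, ha]
        lie_mem' := by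
          intro a b ha hb y
          rw [lie_lie, lie_lie, map_sub, hb, ha, ha, hb] }
    have hM : ∀ x, x ∈ M ↔ ∀ y, ⁅x, φ y⁆ = φ ⁅x, y⁆ := fun x => Iff.rfl
    refine section_of_subalgebra p M ?_ ?_
    · intro x hx hpx
      refine hcen x hpx fun y => ?_
      have := (hM x).mp hx y
      rw [hab _ _ hpx (h1 y), h2 _ (by rw [LieHom.map_lie, hpx, zero_lie])] at this
      exact this.symm
    · intro s
      obtain ⟨x, rfl⟩ := hp s
      obtain ⟨r, hr, h4⟩ := h3 x
      refine ⟨x + r, ?_, by rw [map_add, hr, add_zero]⟩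
      rw [hM]
      intro y
      rw [add_lie, add_lie, map_add, hab _ _ hr (h1 y),
        h2 ⁅r, y⁆ (by rw [LieHom.map_lie, hr, zero_lie]), ← h4 y]
      abel
  · have h5 : ∀ x y : L, φ ⁅x, y⁆ = 0 := by
      intro x y
      obtain ⟨r, hr, h4⟩ := h3 x
      have h6 := h4 y
      rw [hcen r hr, ← lie_skew, hcen (φ y) (h1 y), neg_zero, zero_sub, neg_eq_zero] at h6
      exact h6
    let M : LieSubalgebra K L :=
      { LinearMap.ker φ with
        lie_mem' := by
          intro a b _ _
          exact h5 a b }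
    have hM : ∀ x, x ∈ M ↔ φ x = 0 := fun x => Iff.rfl
    refine section_of_subalgebra p M ?_ ?_
    · intro x hx hpx
      rw [← h2 x hpx]
      exact (hM x).mp hx
    · intro s
      obtain ⟨x, rfl⟩ := hp s
      refine ⟨x - φ x, ?_, by rw [map_sub, h1, sub_zero]⟩
      rw [hM, map_sub, h2 (φ x) (h1 x), sub_self]

/-- The quotient map as a Lie algebra homomorphism. -/
def quotHom {L : Type w} [LieRing L] [LieAlgebra K L] (I : LieIdeal K L) : L →ₗ⁅K⁆ (L ⧸ I) :=
  { (LieSubmodule.Quotient.mk' I : L →ₗ[K] L ⧸ I) with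
    map_lie' := fun {_ _} => rfl }

omit [CharZero K] in
theorem quotHom_surjective {L : Type w} [LieRing L] [LieAlgebra K L] (I : LieIdeal K L) :
    Function.Surjective (quotHom I) := LieSubmodule.Quotient.surjective_mk' I

omit [CharZero K] in
theorem quotHom_eq_zero {L : Type w} [LieRing L] [LieAlgebra K L] (I : LieIdeal K L) (x : L) :
    quotHom I x = 0 ↔ x ∈ I := LieSubmodule.Quotient.mk_eq_zero I

/-- Descending a Lie algebra homomorphism to a quotient. -/
def quotLift {L : Type w} [LieRing L] [LieAlgebra K L] (I : LieIdeal K L) (p : L →ₗ⁅K⁆ S)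
    (h : ∀ x ∈ I, p x = 0) : (L ⧸ I) →ₗ⁅K⁆ S :=
  { I.toSubmodule.liftQ (p : L →ₗ[K] S) (fun x hx => h x hx) with
    map_lie' := by
      intro x y
      obtain ⟨x, rfl⟩ := quotHom_surjective I x
      obtain ⟨y, rfl⟩ := quotHom_surjective I y
      exact LieHom.map_lie p x y }

omit [CharZero K] [FiniteDimensional K S] [HasTrivialRadical K S] in
theorem quotLift_apply {L : Type w} [LieRing L] [LieAlgebra K L] (I : LieIdeal K L)
    (p : L →ₗ⁅K⁆ S) (h : ∀ x ∈ I, p x = 0) (x : L) : quotLift I p h (quotHom I x) = p x := rfl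

theorem levi_aux (n : ℕ) : ∀ (L : Type w) [LieRing L] [LieAlgebra K L] [FiniteDimensional K L]
    (p : L →ₗ⁅K⁆ S) (_ : Function.Surjective p) (_ : IsSolvable p.ker),
    finrank K p.ker ≤ n → ∃ σ : S →ₗ⁅K⁆ L, ∀ s, p (σ s) = s := by
  induction n with
  | zero =>
    intro L _ _ _ p hp _ hn
    have h0 : ∀ x, p x = 0 → x = 0 := by
      intro x hx
      have : Subsingleton p.ker := Module.finrank_zero_iff.mp (Nat.le_zero.mp hn)
      exact congrArg Subtype.val (Subsingleton.elim (⟨x, by rwa [LieHom.mem_ker]⟩ : p.ker) 0)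
    refine levi_irr p hp ?_ (Or.inl fun x hx _ => h0 x hx)
    intro x y hx hy
    rw [h0 x hx, zero_lie]
  | succ n ih =>
    intro L _ _ _ p hp hsol hn
    by_cases hex : ∃ I : LieIdeal K L, I ≠ ⊥ ∧ I < p.ker
    · obtain ⟨I, hI0, hI1⟩ := hex
      have hIp : ∀ x ∈ I, p x = 0 := fun x hx => by
        have := hI1.le hx
        rwa [LieHom.mem_ker] at this
      let pb : (L ⧸ I) →ₗ⁅K⁆ S := quotLift I p hIp
      have hpb : Function.Surjective pb := by
        intro s
        obtain ⟨x, rfl⟩ := hp s
        exact ⟨quotHom I x, rfl⟩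
      have hIpos : 0 < finrank K I := by
        have : Nontrivial I := (LieSubmodule.nontrivial_iff_ne_bot K L L).mpr hI0
        exact Module.finrank_pos (R := K) (M := I)
      have hr1 : finrank K p.ker + finrank K S = finrank K L := by
        have := LinearMap.finrank_range_add_finrank_ker (p : L →ₗ[K] S)
        rw [LinearMap.range_eq_top.mpr hp, finrank_top] at this
        have h2 : finrank K p.ker = finrank K (LinearMap.ker (p : L →ₗ[K] S)) := rfl
        omega
      have hr2 : finrank K pb.ker + finrank K S = finrank K (L ⧸ I) := by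
        have := LinearMap.finrank_range_add_finrank_ker (pb : (L ⧸ I) →ₗ[K] S)
        rw [LinearMap.range_eq_top.mpr hpb, finrank_top] at this
        have h2 : finrank K pb.ker = finrank K (LinearMap.ker (pb : (L ⧸ I) →ₗ[K] S)) := rfl
        omega
      have hr3 : finrank K (L ⧸ I) + finrank K I = finrank K L :=
        Submodule.finrank_quotient_add_finrank I.toSubmodule
      have hsolb : IsSolvable pb.ker := by
        let g : p.ker →ₗ⁅K⁆ pb.ker :=
          { toFun := fun x => ⟨quotHom I x, by
              rw [LieHom.mem_ker]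
              change p x = 0
              have := x.2
              rwa [LieHom.mem_ker] at this⟩
            map_add' := fun x y => rfl
            map_smul' := fun c x => rfl
            map_lie' := fun {x y} => rfl }
        have hg : Function.Surjective g := by
          rintro ⟨y, hy⟩
          obtain ⟨x, rfl⟩ := quotHom_surjective I y
          rw [LieHom.mem_ker] at hy
          exact ⟨⟨x, by rw [LieHom.mem_ker]; exact hy⟩, rfl⟩
        exact hg.lieAlgebra_isSolvable
      obtain ⟨σ1, hσ1⟩ := ih (L ⧸ I) pb hpb hsolb (by omega)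
      let L1 : LieSubalgebra K L :=
        { carrier := {x | quotHom I x = σ1 (p x)}
          add_mem' := by
            intro a b (ha : quotHom I a = σ1 (p a)) (hb : quotHom I b = σ1 (p b))
            change quotHom I (a + b) = σ1 (p (a + b))
            rw [map_add, map_add, map_add, ha, hb]
          zero_mem' := by
            change quotHom I 0 = σ1 (p 0)
            rw [map_zero, map_zero, map_zero]
          smul_mem' := by
            intro c a (ha : quotHom I a = σ1 (p a))
            change quotHom I (c • a) = σ1 (p (c • a))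
            rw [map_smul, map_smul, map_smul, ha]
          lie_mem' := by
            intro a b (ha : quotHom I a = σ1 (p a)) (hb : quotHom I b = σ1 (p b))
            change quotHom I ⁅a, b⁆ = σ1 (p ⁅a, b⁆)
            rw [LieHom.map_lie, LieHom.map_lie, LieHom.map_lie, ha, hb] }
      have hL1 : ∀ x, x ∈ L1 ↔ quotHom I x = σ1 (p x) := fun x => Iff.rfl
      let p1 : L1 →ₗ⁅K⁆ S := p.comp L1.incl
      have hp1 : ∀ x : L1, p1 x = p (x : L) := fun x => rfl
      have hp1s : Function.Surjective p1 := by
        intro s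
        obtain ⟨x, hx⟩ := quotHom_surjective I (σ1 s)
        have hpx : p x = s := by
          rw [← hσ1 s, ← hx]
          rfl
        exact ⟨⟨x, by rw [hL1, hx, hpx]⟩, hpx⟩
      have hk1 : ∀ x : L1, p1 x = 0 → (x : L) ∈ I := by
        intro x hx
        have h1 := (hL1 x).mp x.2
        rw [hp1] at hx
        rw [hx, map_zero] at h1
        exact (quotHom_eq_zero I _).mp h1
      have hsol1 : IsSolvable p1.ker := by
        let g : p1.ker →ₗ⁅K⁆ p.ker :=
          { toFun := fun x => ⟨x.1.1, by
              have := x.2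
              rw [LieHom.mem_ker] at this ⊢
              exact this⟩
            map_add' := fun x y => rfl
            map_smul' := fun c x => rfl
            map_lie' := fun {x y} => rfl }
        have hg : Function.Injective g := by
          intro x y hxy
          have h1 := congrArg (fun z : p.ker => (z : L)) hxy
          exact Subtype.ext (Subtype.ext h1)
        exact hg.lieAlgebra_isSolvable
      have hfin1 : finrank K p1.ker ≤ finrank K I := by
        let g : p1.ker →ₗ[K] I :=
          { toFun := fun x => ⟨x.1.1, hk1 x.1 (by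
              have := x.2
              rwa [LieHom.mem_ker] at this)⟩
            map_add' := fun x y => rfl
            map_smul' := fun c x => rfl }
        have hg : Function.Injective g := by
          intro x y hxy
          have h1 := congrArg (fun z : I => (z : L)) hxy
          exact Subtype.ext (Subtype.ext h1)
        exact LinearMap.finrank_le_finrank_of_injective hg
      have hfin2 : finrank K I < finrank K p.ker := by
        apply Submodule.finrank_lt_finrank_of_lt
        exact hI1
      obtain ⟨σ2, hσ2⟩ := ih L1 p1 hp1s hsol1 (by omega)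
      exact ⟨L1.incl.comp σ2, fun s => hσ2 s⟩
    · push Not at hex
      have hdich : ∀ I : LieIdeal K L, I ≤ p.ker → I = ⊥ ∨ I = p.ker := by
        intro I hI
        by_cases h0 : I = ⊥
        · exact Or.inl h0
        · right
          by_contra h1
          exact hex I h0 (lt_of_le_of_ne hI h1)
      have habk : ⁅p.ker, p.ker⁆ = ⊥ := by
        rcases hdich ⁅p.ker, p.ker⁆ (LieSubmodule.lie_le_right _ _) with h | h
        · exact h
        · obtain ⟨k, hk⟩ := IsSolvable.solvable K p.ker
          rw [LieIdeal.derivedSeries_eq_bot_iff] at hk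
          have h2 : ∀ k, derivedSeriesOfIdeal K L k p.ker = p.ker := by
            intro k
            induction k with
            | zero => rfl
            | succ k ih => rw [derivedSeriesOfIdeal_succ, ih, h]
          rw [h2] at hk
          rw [h, hk]
      have hab : ∀ x y, p x = 0 → p y = 0 → ⁅x, y⁆ = 0 := by
        intro x y hx hy
        have h1 : ⁅x, y⁆ ∈ ⁅p.ker, p.ker⁆ :=
          LieSubmodule.lie_mem_lie (by rwa [LieHom.mem_ker]) (by rwa [LieHom.mem_ker])
        rw [habk] at h1
        exact h1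
      refine levi_irr p hp hab ?_
      rcases hdich (p.ker ⊓ center K L) inf_le_left with h | h
      · left
        intro x hx hy
        have h1 : x ∈ p.ker ⊓ center K L := by
          rw [LieSubmodule.mem_inf]
          refine ⟨by rwa [LieHom.mem_ker], ?_⟩
          rw [LieModule.mem_maxTrivSubmodule]
          intro y
          rw [← lie_skew, hy, neg_zero]
        rw [h] at h1
        exact h1
      · right
        intro x hx y
        have h1 : x ∈ p.ker ⊓ center K L := by
          rw [h, LieHom.mem_ker]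
          exact hx
        have h2 := (LieSubmodule.mem_inf _ _ x).mp h1
        have h3 := (LieModule.mem_maxTrivSubmodule K L L x).mp h2.2 y
        rw [← lie_skew, h3, neg_zero]

end Section

/-- The quotient of a finite-dimensional Lie algebra by its radical has trivial radical. -/
theorem hasTrivialRadical_quotient {K : Type u} [Field K] [CharZero K] (L : Type w) [LieRing L]
    [LieAlgebra K L] [FiniteDimensional K L] : HasTrivialRadical K (L ⧸ radical K L) := by
  set R := radical K L with hR
  rw [hasTrivialRadical_iff_no_solvable_ideals]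
  intro I hI
  let J : LieIdeal K L := I.comap (quotHom R)
  obtain ⟨k, hk⟩ := IsSolvable.solvable K I
  rw [LieIdeal.derivedSeries_eq_bot_iff] at hk
  have h1 : ∀ k, ∀ x ∈ derivedSeriesOfIdeal K L k J,
      quotHom R x ∈ derivedSeriesOfIdeal K (L ⧸ R) k I := by
    intro k
    induction k with
    | zero => intro x hx; exact hx
    | succ k ih =>
      intro x hx
      rw [derivedSeriesOfIdeal_succ, ← LieSubmodule.mem_toSubmodule,
        LieSubmodule.lieIdeal_oper_eq_linear_span'] at hx
      rw [derivedSeriesOfIdeal_succ]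
      induction hx using Submodule.span_induction with
      | mem y hy =>
        obtain ⟨a, ha, b, hb, rfl⟩ := hy
        rw [LieHom.map_lie]
        exact LieSubmodule.lie_mem_lie (ih a ha) (ih b hb)
      | zero => rw [map_zero]; exact zero_mem _
      | add y z _ _ hy hz => rw [map_add]; exact add_mem hy hz
      | smul c y _ hy => rw [map_smul]; exact SMulMemClass.smul_mem _ hy
  have h2 : derivedSeriesOfIdeal K L k J ≤ R := by
    intro x hx
    have := h1 k x hx
    rw [hk] at this
    exact (quotHom_eq_zero R x).mp this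
  obtain ⟨l, hl⟩ := IsSolvable.solvable K R
  rw [LieIdeal.derivedSeries_eq_bot_iff] at hl
  have h3 : derivedSeriesOfIdeal K L (l + k) J = ⊥ := by
    rw [derivedSeriesOfIdeal_add, eq_bot_iff, ← hl]
    exact derivedSeriesOfIdeal_mono h2 l
  have h4 : IsSolvable J := IsSolvable.mk (R := K) (k := l + k) (by
    rw [LieIdeal.derivedSeries_eq_bot_iff]
    exact h3)
  have h5 : J ≤ R := (LieIdeal.solvable_iff_le_radical K L J).mp h4
  rw [eq_bot_iff]
  intro y hy
  obtain ⟨x, rfl⟩ := quotHom_surjective R y
  have h6 : x ∈ J := hy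
  have h7 := (quotHom_eq_zero R x).mpr (h5 h6)
  rw [h7]
  exact zero_mem _

/-- **Levi's theorem**: a finite-dimensional Lie algebra over a field of characteristic zero has
an idempotent Lie algebra endomorphism whose kernel is the radical. -/
theorem levi {K : Type u} [Field K] [CharZero K] (L : Type w) [LieRing L] [LieAlgebra K L]
    [FiniteDimensional K L] :
    ∃ π : L →ₗ⁅K⁆ L, (∀ x, π (π x) = π x) ∧ (∀ x, π x = 0 ↔ x ∈ radical K L) := by
  have := hasTrivialRadical_quotient (K := K) L
  set R := radical K L with hR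
  have hfd : FiniteDimensional K (L ⧸ R) :=
    inferInstanceAs (FiniteDimensional K (L ⧸ R.toSubmodule))
  have hker : (quotHom R).ker = R := by
    ext x
    rw [LieHom.mem_ker, quotHom_eq_zero]
  have hsol : IsSolvable (quotHom R).ker := by
    rw [hker]; infer_instance
  obtain ⟨σ, hσ⟩ := levi_aux (S := L ⧸ R) _ L (quotHom R) (quotHom_surjective R) hsol le_rfl
  refine ⟨σ.comp (quotHom R), fun x => ?_, fun x => ?_⟩
  · simp only [LieHom.comp_apply, hσ]
  · rw [LieHom.comp_apply]
    constructor
    · intro h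
      rw [← quotHom_eq_zero, ← hσ (quotHom R x), h, map_zero]
    · intro h
      rw [(quotHom_eq_zero R x).mpr h, map_zero]

end Pool.Agent.Levi
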