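import Mathlib

/-!
# `[L, R]` acts nilpotently for a solvable ideal `R` (characteristic zero)
-/

open LieModule LieAlgebra Module
open scoped TensorProduct

universe v

namespace Pool.Agent.Levi

section AlgClosed

variable {K : Type*} [Field K] [CharZero K] [IsAlgClosed K]
variable {L : Type*} [LieRing L] [LieAlgebra K L]

attribute [local instance 100] LieRing.ofAssociativeRing

theorem exists_submodule_trivial (R : LieIdeal K L) [IsSolvable R] (V : Type*) [AddCommGroup V]
    [Module K V] [FiniteDimensional K V] [LieRingModule L V] [LieModule K L V] [Nontrivial V] :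
    ∃ W : LieSubmodule K L V, W ≠ ⊥ ∧
      ∀ x ∈ ⁅(⊤ : LieIdeal K L), R⁆, ∀ w ∈ W, ⁅x, w⁆ = 0 := by
  obtain ⟨χ, hχ⟩ := exists_nontrivial_weightSpace_of_isSolvable K R V
  let W : LieSubmodule K L V := weightSpaceOfIsLieTower K V χ
  have hW : ∀ v, v ∈ W ↔ ∀ r : R, ⁅r, v⁆ = χ r • v := by
    intro v
    change v ∈ weightSpace V χ ↔ _
    rw [mem_weightSpace]
  have hne : W ≠ ⊥ := by
    intro h
    obtain ⟨⟨v, hv⟩, hv0⟩ := exists_ne (0 : weightSpace V χ)
    have : v ∈ W := hv
    rw [h] at this
    exact hv0 (Subtype.ext this)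
  refine ⟨W, hne, ?_⟩
  have hnt : Nontrivial W := (LieSubmodule.nontrivial_iff_ne_bot K L V).mpr hne
  have key : ∀ (x : L) (r : L) (hr : r ∈ R), ∀ w ∈ W, ⁅⁅x, r⁆, w⁆ = 0 := by
    intro x r hr w hw
    have hxr : ⁅x, r⁆ ∈ R := lie_mem_right _ _ _ _ _ hr
    have h1 : toEnd K L W ⁅x, r⁆ = (χ ⟨⁅x, r⁆, hxr⟩) • (1 : End K W) := by
      ext ⟨v, hv⟩
      have := (hW v).mp hv ⟨⁅x, r⁆, hxr⟩
      simpa using this
    have h2 : LinearMap.trace K W (toEnd K L W ⁅x, r⁆) = 0 := by
      rw [LieHom.map_lie, LinearMap.trace_lie]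
    rw [h1, map_smul, LinearMap.trace_one] at h2
    have h3 : χ ⟨⁅x, r⁆, hxr⟩ = 0 := by
      have : (finrank K W : K) ≠ 0 := by
        exact_mod_cast (Module.finrank_pos (R := K) (M := W)).ne'
      simpa [this] using h2
    have := (hW w).mp hw ⟨⁅x, r⁆, hxr⟩
    rw [h3, zero_smul] at this
    exact this
  intro x hx w hw
  rw [← LieSubmodule.mem_toSubmodule, LieSubmodule.lieIdeal_oper_eq_linear_span'] at hx
  induction hx using Submodule.span_induction with
  | mem y hy =>
    obtain ⟨a, -, b, hb, rfl⟩ := hy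
    exact key a b hb w hw
  | zero => simp
  | add y z _ _ hy hz => rw [add_lie, hy, hz, add_zero]
  | smul c y _ hy => rw [smul_lie, hy, smul_zero]

theorem isNilpotent_toEnd_aux (R : LieIdeal K L) [IsSolvable R] (x : L)
    (hx : x ∈ ⁅(⊤ : LieIdeal K L), R⁆) :
    ∀ (n : ℕ) (V : Type v) [AddCommGroup V] [Module K V] [FiniteDimensional K V]
      [LieRingModule L V] [LieModule K L V], finrank K V ≤ n → (toEnd K L V x) ^ n = 0 := by
  intro n
  induction n with
  | zero =>
    intro V _ _ _ _ _ hV
    have : Subsingleton V := Module.finrank_zero_iff.mp (Nat.le_zero.mp hV)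
    ext v
    exact Subsingleton.elim _ _
  | succ n ih =>
    intro V _ _ _ _ _ hV
    rcases subsingleton_or_nontrivial V with h | h
    · ext v
      exact Subsingleton.elim _ _
    obtain ⟨W, hW0, hW⟩ := exists_submodule_trivial R V
    have hfin : finrank K (V ⧸ W) ≤ n := by
      have h1 : finrank K (V ⧸ W.toSubmodule) + finrank K W.toSubmodule = finrank K V :=
        Submodule.finrank_quotient_add_finrank _
      have h2 : 0 < finrank K W.toSubmodule := by
        have : Nontrivial W := (LieSubmodule.nontrivial_iff_ne_bot K L V).mpr hW0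
        exact Module.finrank_pos (R := K) (M := W)
      have h3 : finrank K (V ⧸ W) = finrank K (V ⧸ W.toSubmodule) := rfl
      omega
    have h4 := ih (V ⧸ W) hfin
    have h5 : ∀ (k : ℕ) (v : V), (((toEnd K L (V ⧸ W) x) ^ k) (LieSubmodule.Quotient.mk' W v)) =
        LieSubmodule.Quotient.mk' W (((toEnd K L V x) ^ k) v) := by
      intro k
      induction k with
      | zero => intro v; simp
      | succ k ihk =>
        intro v
        rw [pow_succ, pow_succ, Module.End.mul_apply, Module.End.mul_apply, ← ihk]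
        congr 1
    ext v
    rw [pow_succ', Module.End.mul_apply]
    have h6 : ((toEnd K L V x) ^ n) v ∈ W := by
      rw [← LieSubmodule.Quotient.mk_eq_zero, ← h5, h4, LinearMap.zero_apply]
    simpa using hW x hx _ h6

end AlgClosed

section Field

variable {K : Type*} [Field K] [CharZero K]
variable {L : Type*} [LieRing L] [LieAlgebra K L]

/-- For a solvable ideal `R` of a Lie algebra `L` in characteristic zero, every element of
`[L, R]` acts nilpotently on every finite-dimensional `L`-module. -/
theorem isNilpotent_toEnd (R : LieIdeal K L) [IsSolvable R] (x : L)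
    (hx : x ∈ ⁅(⊤ : LieIdeal K L), R⁆)
    (V : Type*) [AddCommGroup V] [Module K V] [FiniteDimensional K V]
    [LieRingModule L V] [LieModule K L V] : IsNilpotent (toEnd K L V x) := by
  let A := AlgebraicClosure K
  have hinj : Function.Injective (Module.End.baseChangeHom K A V) :=
    LinearMap.baseChangeHom_injective K V A
  have aux : (toEnd K L V x).baseChangeHom K A V = (toEnd K L V x).baseChange A := rfl
  rw [← IsNilpotent.map_iff hinj, aux, ← toEnd_baseChange]
  have hsol : IsSolvable (R.baseChange A) := by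
    obtain ⟨k, hk⟩ := IsSolvable.solvable K R
    rw [LieIdeal.derivedSeries_eq_bot_iff] at hk
    refine IsSolvable.mk (R := A) (k := k) ?_
    rw [LieIdeal.derivedSeries_eq_bot_iff, derivedSeriesOfIdeal_baseChange, hk,
      LieSubmodule.baseChange_bot]
  have hmem : (1 : A) ⊗ₜ[K] x ∈ ⁅(⊤ : LieIdeal A (A ⊗[K] L)), R.baseChange A⁆ := by
    rw [← LieSubmodule.baseChange_top, ← LieSubmodule.lie_baseChange]
    exact Submodule.tmul_mem_baseChange_of_mem 1 hx
  exact ⟨_, isNilpotent_toEnd_aux (R.baseChange A) _ hmem _ (A ⊗[K] V) le_rfl⟩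

theorem ad_nilpotent_of_mem [FiniteDimensional K L] (x : L)
    (hx : x ∈ ⁅(⊤ : LieIdeal K L), LieAlgebra.radical K L⁆) : IsNilpotent (LieAlgebra.ad K L x) :=
  isNilpotent_toEnd (LieAlgebra.radical K L) x hx L

end Field

end Pool.Agent.Levi
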