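import Mathlib

/-!
# Whitehead's first lemma (in cocycle form) for Lie algebras with trivial radical
over a field of characteristic zero
-/

open LieModule LieAlgebra Module

namespace Pool.Agent.Levi

universe u v w

section DualBasis

variable {K : Type*} [Field K] {J : Type*} [AddCommGroup J] [Module K J]
  {ι : Type*} [Fintype ι] [DecidableEq ι]

theorem sum_dual_eq_zero (β : LinearMap.BilinForm K J) (hβ : β.Nondegenerate) (hs : β.IsSymm)
    (b : Basis ι K J) (D : J →ₗ[K] J) (hD : ∀ x y, β (D x) y = - β x (D y))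
    {M : Type*} [AddCommGroup M] [Module K M] (F : J →ₗ[K] J →ₗ[K] M) :
    ∑ i, (F (D (b i)) (β.dualBasis hβ b i) + F (b i) (D (β.dualBasis hβ b i))) = 0 := by
  set b' := β.dualBasis hβ b with hb'
  have h1 : ∀ x, x = ∑ j, β (b' j) x • b j := by
    intro x
    conv_lhs => rw [← b.sum_repr x]
    refine Finset.sum_congr rfl fun j _ => ?_
    congr 1
    have := LinearMap.BilinForm.dualBasis_repr_apply (B := β) hβ b' x j
    rw [hb', LinearMap.BilinForm.dualBasis_dualBasis hβ hs b] at this
    rw [this, hs.eq]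
  have h2 : ∀ x, x = ∑ j, β x (b j) • b' j := by
    intro x
    conv_lhs => rw [← b'.sum_repr x]
    refine Finset.sum_congr rfl fun j _ => ?_
    rw [LinearMap.BilinForm.dualBasis_repr_apply]
  rw [Finset.sum_add_distrib]
  have e1 : ∑ i, F (D (b i)) (b' i) = ∑ i, ∑ j, β (b' j) (D (b i)) • F (b j) (b' i) := by
    refine Finset.sum_congr rfl fun i _ => ?_
    conv_lhs => rw [h1 (D (b i))]
    simp
  have e2 : ∑ i, F (b i) (D (b' i)) = ∑ i, ∑ j, β (D (b' j)) (b i) • F (b j) (b' i) := by
    rw [Finset.sum_comm]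
    refine Finset.sum_congr rfl fun i _ => ?_
    conv_lhs => rw [h2 (D (b' i))]
    simp
  rw [e1, e2, ← Finset.sum_add_distrib]
  refine Finset.sum_eq_zero fun i _ => ?_
  rw [← Finset.sum_add_distrib]
  refine Finset.sum_eq_zero fun j _ => ?_
  rw [hD, neg_smul, add_neg_cancel]

end DualBasis

section Irr

attribute [local instance 100] LieRing.ofAssociativeRing

theorem derivedSeries_one_eq_top {K : Type u} [Field K] [CharZero K] {S : Type v} [LieRing S]
    [LieAlgebra K S] [FiniteDimensional K S] [HasTrivialRadical K S] :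
    derivedSeries K S 1 = ⊤ := by
  have hc := LieIdeal.isCompl_killingCompl (K := K) (L := S) (derivedSeries K S 1)
  have h0 : (derivedSeries K S 1).killingCompl = ⊥ := by
    rw [eq_bot_iff]
    intro z hz
    rw [LieIdeal.mem_killingCompl] at hz
    have hnd := IsKilling.killingForm_nondegenerate K S
    have hcen : z ∈ center K S := by
      rw [LieModule.mem_maxTrivSubmodule]
      intro x
      apply hnd.1
      intro y
      have h1 : ⁅x, y⁆ ∈ derivedSeries K S 1 := by
        rw [derivedSeries_def, derivedSeriesOfIdeal_succ, derivedSeriesOfIdeal_zero]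
        exact LieSubmodule.lie_mem_lie (LieSubmodule.mem_top x) (LieSubmodule.mem_top y)
      have h2 := hz _ h1
      rw [LieModule.traceForm_comm] at h2
      rw [LieModule.traceForm_apply_lie_apply', h2, neg_zero]
    rw [center_eq_bot] at hcen
    exact hcen
  have := hc.sup_eq_top
  rwa [h0, sup_bot_eq] at this

/-- The kernel of the trace form as an ideal. -/
noncomputable def kerTrace (K : Type u) [Field K] (S : Type v) [LieRing S] [LieAlgebra K S]
    (W : Type w) [AddCommGroup W] [Module K W] [LieRingModule S W]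
    [LieModule K S W] : LieIdeal K S :=
  { LinearMap.ker (traceForm K S W) with
    lie_mem := by
      intro x m hm
      have hm' : traceForm K S W m = 0 := hm
      change traceForm K S W ⁅x, m⁆ = 0
      ext y
      rw [traceForm_apply_lie_apply', hm', LinearMap.zero_apply, LinearMap.zero_apply, neg_zero] }

theorem mem_kerTrace {K : Type u} [Field K] {S : Type v} [LieRing S] [LieAlgebra K S]
    {W : Type w} [AddCommGroup W] [Module K W] [LieRingModule S W]
    [LieModule K S W] {x : S} : x ∈ kerTrace K S W ↔ traceForm K S W x = 0 := Iff.rfl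

theorem whitehead_irr {K : Type u} [Field K] [CharZero K] {S : Type v} [LieRing S]
    [LieAlgebra K S] [FiniteDimensional K S] [HasTrivialRadical K S]
    {W : Type w} [AddCommGroup W] [Module K W] [FiniteDimensional K W] [LieRingModule S W]
    [LieModule K S W] (hirr : ∀ N : LieSubmodule K S W, N = ⊥ ∨ N = ⊤)
    (f : S →ₗ[K] W) (hf : ∀ x y, f ⁅x, y⁆ = ⁅x, f y⁆ - ⁅y, f x⁆) :
    ∃ w, ∀ x, f x = ⁅x, w⁆ := by
  classical
  rcases subsingleton_or_nontrivial W with hW | hW
  · exact ⟨0, fun x => Subsingleton.elim _ _⟩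
  by_cases hT : traceForm K S W = 0
  · -- `S` acts trivially
    have hnil := isNilpotent_derivedSeries_of_traceForm_eq_zero hT
    have htriv : LieModule.IsNilpotent S W := by
      rw [LieModule.isNilpotent_iff_forall' (R := K)] at hnil ⊢
      intro x
      have hx : x ∈ derivedSeries K S 1 := by
        rw [derivedSeries_one_eq_top]; exact LieSubmodule.mem_top x
      exact hnil ⟨x, hx⟩
    have hnt : Nontrivial (maxTrivSubmodule K S W) := nontrivial_max_triv_of_isNilpotent K S W
    have htop : maxTrivSubmodule K S W = ⊤ := by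
      rcases hirr (maxTrivSubmodule K S W) with h | h
      · exact absurd h ((LieSubmodule.nontrivial_iff_ne_bot K S W).mp hnt)
      · exact h
    have hact : ∀ (x : S) (w : W), ⁅x, w⁆ = 0 := by
      intro x w
      have : w ∈ maxTrivSubmodule K S W := by rw [htop]; exact LieSubmodule.mem_top w
      exact (LieModule.mem_maxTrivSubmodule K S W w).mp this x
    refine ⟨0, fun x => ?_⟩
    rw [lie_zero]
    have hx : x ∈ derivedSeries K S 1 := by
      rw [derivedSeries_one_eq_top]; exact LieSubmodule.mem_top x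
    rw [derivedSeries_def, derivedSeriesOfIdeal_succ, derivedSeriesOfIdeal_zero,
      ← LieSubmodule.mem_toSubmodule, LieSubmodule.lieIdeal_oper_eq_linear_span'] at hx
    induction hx using Submodule.span_induction with
    | mem y hy =>
      obtain ⟨a, -, b, -, rfl⟩ := hy
      rw [hf, hact, hact, sub_zero]
    | zero => simp
    | add y z _ _ hy hz => rw [map_add, hy, hz, add_zero]
    | smul c y _ hy => rw [map_smul, hy, smul_zero]
  · -- the Casimir element
    set I : LieIdeal K S := kerTrace K S W with hI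
    set J : LieIdeal K S := I.killingCompl with hJ
    have hc : IsCompl I J := LieIdeal.isCompl_killingCompl I
    let β : LinearMap.BilinForm K J := (traceForm K S W).restrict J.toSubmodule
    have hβap : ∀ x y : J, β x y = traceForm K S W (x : S) (y : S) := fun x y => rfl
    have hβs : β.IsSymm := ⟨fun x y => by
      simp only [hβap]
      exact traceForm_comm K S W _ _⟩
    have hβn : β.Nondegenerate := by
      refine hβs.isRefl.nondegenerate_iff_separatingLeft.mpr ?_
      intro x hx
      have h1 : (x : S) ∈ I := by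
        rw [hI, mem_kerTrace]
        ext y
        have hy : y ∈ I ⊔ J := by rw [hc.sup_eq_top]; exact LieSubmodule.mem_top y
        rw [LieSubmodule.mem_sup] at hy
        obtain ⟨a, ha, b, hb, rfl⟩ := hy
        rw [map_add, LinearMap.zero_apply, traceForm_comm K S W _ a, mem_kerTrace.mp ha,
          LinearMap.zero_apply, zero_add]
        exact hx ⟨b, hb⟩
      have h2 : (x : S) ∈ I ⊓ J := ⟨h1, x.2⟩
      rw [hc.inf_eq_bot] at h2
      exact Subtype.ext h2
    let b := Module.finBasis K J
    let b' := β.dualBasis hβn b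
    let c : End K W := ∑ i, toEnd K S W (b i : S) * toEnd K S W (b' i : S)
    have hDx : ∀ x : S, ∀ y z : J, β (toEnd K S J x y) z = - β y (toEnd K S J x z) := by
      intro x y z
      simp only [hβap]
      exact traceForm_apply_lie_apply' K S W x y z
    have hcomm : ∀ (x : S) (w : W), ⁅x, c w⁆ = c ⁅x, w⁆ := by
      intro x w
      let F : J →ₗ[K] J →ₗ[K] End K W :=
        (LinearMap.mul K (End K W)).compl₁₂ ((toEnd K S W : S →ₗ[K] End K W) ∘ₗ J.toSubmodule.subtype)
          ((toEnd K S W : S →ₗ[K] End K W) ∘ₗ J.toSubmodule.subtype)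
      have h := sum_dual_eq_zero β hβn hβs b (toEnd K S J x) (hDx x) F
      have h' := congrArg (fun g : End K W => g w) h
      simp only [LinearMap.zero_apply, LinearMap.sum_apply, LinearMap.add_apply] at h'
      have h3 : ∀ y z : J, F y z w = ⁅(y : S), ⁅(z : S), w⁆⁆ := fun y z => rfl
      simp only [h3] at h'
      have h4 : ⁅x, c w⁆ - c ⁅x, w⁆ = 0 := by
        rw [← h']
        simp only [c, LinearMap.sum_apply, Module.End.mul_apply, toEnd_apply_apply, lie_sum]
        rw [← Finset.sum_sub_distrib]
        refine Finset.sum_congr rfl fun i _ => ?_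
        simp only [LieSubmodule.coe_bracket]
        change ⁅x, ⁅(b i : S), ⁅(b' i : S), w⁆⁆⁆ - ⁅(b i : S), ⁅(b' i : S), ⁅x, w⁆⁆⁆ =
          ⁅⁅x, (b i : S)⁆, ⁅(b' i : S), w⁆⁆ + ⁅(b i : S), ⁅⁅x, (b' i : S)⁆, w⁆⁆
        rw [leibniz_lie x (b i : S), leibniz_lie x (b' i : S), lie_add]
        abel
      exact sub_eq_zero.mp h4
    have htr : LinearMap.trace K W c = (Module.finrank K J : K) := by
      simp only [c, map_sum]
      have : ∀ i, LinearMap.trace K W (toEnd K S W (b i : S) * toEnd K S W (b' i : S)) = 1 := by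
        intro i
        have := LinearMap.BilinForm.apply_dualBasis_right (B := β) hβn hβs b i i
        rw [if_pos rfl] at this
        exact this
      simp [this]
    have hJ0 : J ≠ ⊥ := by
      intro h
      apply hT
      have h2 := hc.sup_eq_top
      rw [h, sup_bot_eq] at h2
      ext x y
      have hx : x ∈ I := by rw [h2]; exact LieSubmodule.mem_top x
      rw [mem_kerTrace.mp hx]
      rfl
    have hfr : (Module.finrank K J : K) ≠ 0 := by
      have : Nontrivial J := (LieSubmodule.nontrivial_iff_ne_bot K S S).mpr hJ0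
      exact_mod_cast (Module.finrank_pos (R := K) (M := J)).ne'
    -- the kernel of the Casimir
    let N : LieSubmodule K S W :=
      { LinearMap.ker c with
        lie_mem := by
          intro x m hm
          have hm' : c m = 0 := hm
          change c ⁅x, m⁆ = 0
          rw [← hcomm, hm', lie_zero] }
    have hN : N = ⊥ := by
      rcases hirr N with h | h
      · exact h
      · exfalso
        have hc0 : c = 0 := by
          ext w
          have : w ∈ N := by rw [h]; exact LieSubmodule.mem_top w
          exact this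
        rw [hc0, map_zero] at htr
        exact hfr htr.symm
    have hker : LinearMap.ker c = ⊥ := by
      rw [eq_bot_iff]
      intro w hw
      have : w ∈ N := hw
      rw [hN] at this
      exact this
    have hinj : Function.Injective c := LinearMap.ker_eq_bot.mp hker
    have hsurj : Function.Surjective c := LinearMap.injective_iff_surjective.mp hinj
    let u : W := ∑ i, ⁅(b i : S), f (b' i : S)⁆
    have hu : ∀ x, ⁅x, u⁆ = c (f x) := by
      intro x
      let F : J →ₗ[K] J →ₗ[K] W :=
        ((toEnd K S W : S →ₗ[K] End K W) ∘ₗ J.toSubmodule.subtype).compl₂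
          (f ∘ₗ J.toSubmodule.subtype)
      have h := sum_dual_eq_zero β hβn hβs b (toEnd K S J x) (hDx x) F
      have h3 : ∀ y z : J, F y z = ⁅(y : S), f (z : S)⁆ := fun y z => rfl
      simp only [h3] at h
      rw [← sub_eq_zero, ← h]
      simp only [c, u, LinearMap.sum_apply, Module.End.mul_apply, toEnd_apply_apply, lie_sum]
      rw [← Finset.sum_sub_distrib]
      refine Finset.sum_congr rfl fun i _ => ?_
      simp only [LieSubmodule.coe_bracket]
      change ⁅x, ⁅(b i : S), f (b' i : S)⁆⁆ - ⁅(b i : S), ⁅(b' i : S), f x⁆⁆ =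
          ⁅⁅x, (b i : S)⁆, f (b' i : S)⁆ + ⁅(b i : S), f ⁅x, (b' i : S)⁆⁆
      rw [leibniz_lie x (b i : S), hf x, lie_sub]
      abel
    obtain ⟨w, hw⟩ := hsurj u
    refine ⟨w, fun x => ?_⟩
    apply hinj
    rw [← hcomm, hw, hu]

theorem whitehead_aux {K : Type u} [Field K] [CharZero K] {S : Type v} [LieRing S]
    [LieAlgebra K S] [FiniteDimensional K S] [HasTrivialRadical K S] (n : ℕ) :
    ∀ (W : Type w) [AddCommGroup W] [Module K W] [FiniteDimensional K W] [LieRingModule S W]
    [LieModule K S W] (f : S →ₗ[K] W), finrank K W ≤ n → 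
    (∀ x y, f ⁅x, y⁆ = ⁅x, f y⁆ - ⁅y, f x⁆) →
    ∃ w, ∀ x, f x = ⁅x, w⁆ := by
  induction n with
  | zero =>
    intro W _ _ _ _ _ f hn hf
    have : Subsingleton W := Module.finrank_zero_iff.mp (Nat.le_zero.mp hn)
    exact ⟨0, fun x => Subsingleton.elim _ _⟩
  | succ n ih =>
    intro W _ _ _ _ _ f hn hf
    by_cases hirr : ∀ N : LieSubmodule K S W, N = ⊥ ∨ N = ⊤
    · exact whitehead_irr hirr f hf
    push Not at hirr
    obtain ⟨N, hN0, hN1⟩ := hirr
    have h1 : finrank K (W ⧸ N.toSubmodule) + finrank K N.toSubmodule = finrank K W :=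
      Submodule.finrank_quotient_add_finrank _
    have h2 : 0 < finrank K N.toSubmodule := by
      have : Nontrivial N := (LieSubmodule.nontrivial_iff_ne_bot K S W).mpr hN0
      exact Module.finrank_pos (R := K) (M := N)
    have h3 : finrank K N.toSubmodule < finrank K W := by
      apply Submodule.finrank_lt
      rw [Ne, LieSubmodule.toSubmodule_eq_top]
      exact hN1
    have h4 : finrank K (W ⧸ N) ≤ n := by
      have : finrank K (W ⧸ N) = finrank K (W ⧸ N.toSubmodule) := rfl
      omega
    have h5 : finrank K N ≤ n := by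
      have : finrank K N = finrank K N.toSubmodule := rfl
      omega
    let q : W →ₗ⁅K, S⁆ W ⧸ N := LieSubmodule.Quotient.mk' N
    obtain ⟨wq, hwq⟩ := ih (W ⧸ N) ((q : W →ₗ[K] W ⧸ N) ∘ₗ f) h4 (by
      intro x y
      simp only [LinearMap.comp_apply, hf, map_sub, LieModuleHom.coe_toLinearMap,
        LieModuleHom.map_lie])
    obtain ⟨w0, rfl⟩ := LieSubmodule.Quotient.surjective_mk' N wq
    have hmem : ∀ x, f x - ⁅x, w0⁆ ∈ N := by
      intro x
      rw [← LieSubmodule.Quotient.mk_eq_zero]
      have := hwq x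
      simp only [LinearMap.comp_apply, LieModuleHom.coe_toLinearMap] at this
      rw [map_sub, LieModuleHom.map_lie]
      rw [sub_eq_zero]
      exact this
    let g : S →ₗ[K] N :=
      LinearMap.codRestrict N.toSubmodule (f - (toEnd K S W : S →ₗ[K] End K W).flip w0) hmem
    have hg : ∀ x, (g x : W) = f x - ⁅x, w0⁆ := fun x => rfl
    obtain ⟨n0, hn0⟩ := ih N g h5 (by
      intro x y
      ext
      simp only [LieSubmodule.coe_sub, LieSubmodule.coe_bracket, hg, hf, lie_sub]
      rw [leibniz_lie x y w0]
      simp only [lie_lie]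
      abel)
    refine ⟨w0 + n0, fun x => ?_⟩
    have := congrArg (fun z : N => (z : W)) (hn0 x)
    simp only [hg, LieSubmodule.coe_bracket] at this
    rw [lie_add, ← this]
    abel

/-- **Whitehead's first lemma**, cocycle form. -/
theorem whitehead {K : Type u} [Field K] [CharZero K] {S : Type v} [LieRing S]
    [LieAlgebra K S] [FiniteDimensional K S] [HasTrivialRadical K S]
    {W : Type w} [AddCommGroup W] [Module K W] [FiniteDimensional K W] [LieRingModule S W]
    [LieModule K S W] (f : S →ₗ[K] W) (hf : ∀ x y, f ⁅x, y⁆ = ⁅x, f y⁆ - ⁅y, f x⁆) :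
    ∃ w, ∀ x, f x = ⁅x, w⁆ :=
  whitehead_aux _ W f le_rfl hf

/-- Whitehead's first lemma for a Lie algebra `L` with a surjection onto `S` whose kernel acts
trivially. -/
theorem whitehead_of_surjective {K : Type u} [Field K] [CharZero K] {S : Type v} [LieRing S]
    [LieAlgebra K S] [FiniteDimensional K S] [HasTrivialRadical K S]
    {L : Type*} [LieRing L] [LieAlgebra K L] (p : L →ₗ⁅K⁆ S) (hp : Function.Surjective p)
    {W : Type w} [AddCommGroup W] [Module K W] [FiniteDimensional K W] [LieRingModule L W]
    [LieModule K L W] (htriv : ∀ x, p x = 0 → ∀ w : W, ⁅x, w⁆ = 0)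
    (f : L →ₗ[K] W) (hf : ∀ x y, f ⁅x, y⁆ = ⁅x, f y⁆ - ⁅y, f x⁆) (hf0 : ∀ x, p x = 0 → f x = 0) :
    ∃ w, ∀ x, f x = ⁅x, w⁆ := by
  obtain ⟨σ, hσ⟩ := LinearMap.exists_rightInverse_of_surjective (p : L →ₗ[K] S)
    (LinearMap.range_eq_top.mpr hp)
  have hσ' : ∀ s, p (σ s) = s := fun s => by
    have := congrArg (fun g : S →ₗ[K] S => g s) hσ
    simpa using this
  let ρ : S →ₗ⁅K⁆ End K W :=
    { ((toEnd K L W : L →ₗ[K] End K W) ∘ₗ σ) with
      map_lie' := by
        intro s t
        change toEnd K L W (σ ⁅s, t⁆) = ⁅toEnd K L W (σ s), toEnd K L W (σ t)⁆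
        rw [← LieHom.map_lie]
        ext w
        have h1 : p (σ ⁅s, t⁆ - ⁅σ s, σ t⁆) = 0 := by
          rw [map_sub, LieHom.map_lie, hσ', hσ', hσ', sub_self]
        have h2 := htriv _ h1 w
        rw [sub_lie, sub_eq_zero] at h2
        simpa using h2 }
  let _i1 : LieRingModule S W := LieRingModule.compLieHom W ρ
  have _i2 : LieModule K S W := LieModule.compLieHom W ρ
  have hact : ∀ (s : S) (w : W), ⁅s, w⁆ = ⁅σ s, w⁆ := fun s w => rfl
  have key : ∀ x (w : W), ⁅σ (p x), w⁆ = ⁅x, w⁆ := by
    intro x w
    have h1 : p (σ (p x) - x) = 0 := by rw [map_sub, hσ', sub_self]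
    have h2 := htriv _ h1 w
    rwa [sub_lie, sub_eq_zero] at h2
  have keyf : ∀ x, f (σ (p x)) = f x := by
    intro x
    have h1 : p (σ (p x) - x) = 0 := by rw [map_sub, hσ', sub_self]
    have h2 := hf0 _ h1
    rwa [map_sub, sub_eq_zero] at h2
  obtain ⟨w, hw⟩ := whitehead (f ∘ₗ σ) (by
    intro s t
    rw [LinearMap.comp_apply, LinearMap.comp_apply, LinearMap.comp_apply, hact, hact, ← hf]
    rw [← keyf ⁅σ s, σ t⁆, LieHom.map_lie, hσ', hσ'])
  refine ⟨w, fun x => ?_⟩
  have := hw (p x)
  rw [LinearMap.comp_apply, keyf, hact, key] at this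
  exact this

end Irr

end Pool.Agent.Levi
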